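import Pool.Agent.FDX.All

/-!
# Finite descent on curves: the primes that `n` needs, for every finite set of primes

For every nonempty finite set `S` of primes there are a smooth projective geometrically
integral curve `C` over `ℚ` without rational points and an integer `M`, whose prime factors
are exactly the primes of `S`, such that the `M`-Selmer set of `C` is empty (as is the
`n`-Selmer set for every multiple `n` of `M`), while the `n`-Selmer set is not empty for every
`n ≥ 1` which is not divisible by all primes of `S`.
-/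

namespace Pool.Agent.Results.MP_d37f77_nt.DescentNeedsAllPrimes

open Pool.Agent.FD

/-- For every nonempty finite set `S` of primes there are a curve `C` over `ℚ` with
`C(ℚ) = ∅` and an integer `M ≥ 1` with prime divisors exactly the elements of `S` such that
`Sel^(n)(C) = ∅` for every multiple `n ≥ 1` of `M` (in particular `Sel^(M)(C) = ∅`), and
`Sel^(n)(C) ≠ ∅` for every `n ≥ 1` that is not divisible by all primes of `S`. -/
theorem result (S : Finset ℕ) (hne : S.Nonempty) (hS : ∀ p ∈ S, p.Prime) :
    ∃ C : Curve, ¬ C.HasPoint ℚ ∧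
      (∀ n : ℕ, 1 ≤ n → (∃ p ∈ S, ¬ p ∣ n) → C.SelNonempty n) ∧
      ∃ M : ℕ, 1 ≤ M ∧ (∀ p : ℕ, p.Prime → (p ∣ M ↔ p ∈ S)) ∧
        ∀ n : ℕ, 1 ≤ n → M ∣ n → ¬ C.SelNonempty n :=
  Pool.Agent.FDX.a_MX2 S hne hS

end Pool.Agent.Results.MP_d37f77_nt.DescentNeedsAllPrimes
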