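import Pool.Agent.QTx.All

/-!
# Finite descent and quadratic twists of hyperelliptic curves

Let `C : y² = f(x)` be a hyperelliptic curve over `ℚ`.  If `f` has odd degree or a rational
root then `C` has a rational Weierstrass point, and so have all quadratic twists
`C_d : d y² = f(x)`.  In all other cases the `2`-Selmer set of `C_d` is empty for all but
`O(X / (log X)^c)` of the squarefree integers `d` with `|d| ≤ X`, in particular `C_d` has no
rational point and this is shown by finite descent.  In every genus `g ≥ 2` there is a curve of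
the second kind all of whose quadratic twists have points everywhere locally.
-/

namespace Pool.Agent.Results.MP_d37f77_nt.HyperellipticTwists

open Polynomial Pool.Agent.QTw Pool.Agent.QTx

open Classical in
/-- (1) Let `f ∈ ℤ[x]` be nonconstant and squarefree over `ℚ`.  If `f` has odd degree or a
rational root, then every twist `C_d : d y² = f(x)`, `d ≠ 0`, has a rational point.  Otherwise
the `2`-Selmer set of `C_d` is empty for all but `O(X / (log X)^c)` of the squarefree integers
`|d| ≤ X`.
(2) For every `g ≥ 2` there is such an `f` of degree `2g + 2` without rational root for which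
every twist `C_d` has points everywhere locally. -/
theorem result :
    (∀ f : ℤ[X], 0 < f.natDegree → Squarefree (f.map (Int.castRingHom ℚ)) →
      ((Odd f.natDegree ∨ ∃ r : ℚ, aeval r f = 0) → ∀ d : ℤ, d ≠ 0 → TwistHasPoint f d) ∧
      (¬ (Odd f.natDegree ∨ ∃ r : ℚ, aeval r f = 0) →
        ∃ c : ℝ, 0 < c ∧ ∃ B : ℝ, ∀ X : ℕ, 2 ≤ X →
          (((Finset.Icc (-(X : ℤ)) X).filter
            (fun d => Squarefree d ∧ TwistSelNonempty 2 f d)).card : ℝ) ≤
            B * X / (Real.log X) ^ c)) ∧
    ∀ g : ℕ, 2 ≤ g → ∃ f : ℤ[X], f.natDegree = 2 * g + 2 ∧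
      Squarefree (f.map (Int.castRingHom ℚ)) ∧ (∀ r : ℚ, aeval r f ≠ 0) ∧
      ∀ d : ℤ, d ≠ 0 → TwistEverywhereLocal f d :=
  main_full

end Pool.Agent.Results.MP_d37f77_nt.HyperellipticTwists
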