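import Pool.Agent.QTr.All

/-!
# Finite descent and the everywhere locally soluble twists of a hyperelliptic curve

Let `C : y² = f(x)` be a hyperelliptic curve over `ℚ` of genus at least two without rational
Weierstrass point, and let `δ` be the density of the primes modulo which `f` has a root.  The
number of the squarefree `d` with `|d| ≤ X` for which the quadratic twist `C_d : d y² = f(x)` has
points everywhere locally has the order of magnitude `X (log X)^(δ - 1)`, and the `2`-Selmer set of
`C_d` is empty for all but a proportion `O((log X)^(-c))` of them.  So `100` per cent of the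
everywhere locally soluble quadratic twists violate the Hasse principle, and this is shown by
finite descent.  (Condition on `f`: no quadratic field generated by a root of `f` is contained in
the fields generated by all the other roots.)
-/

namespace Pool.Agent.Results.MP_d37f77_nt.LocallySolubleTwists

open Polynomial Pool.Agent.QTw Pool.Agent.QTr

open Classical in
/-- Let `f ∈ ℤ[x]` be squarefree over `ℚ`, of even degree at least `6`, without rational root, and
such that for every root `a` of `f` which is quadratic over `ℚ` there is a root `b` of `f` with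
`a ∉ ℚ(b)`.  There are `δ ∈ (0, 1]`, `c > 0` and `B > 0` such that
(1) `δ` is the density of the primes modulo which `f` has a root;
(2) the number of squarefree `|d| ≤ X` for which `C_d` has points everywhere locally is between
`X (log X)^(δ - 1) / B` and `B X (log X)^(δ - 1)`;
(3) the `2`-Selmer set of `C_d` is not empty for a proportion of at most `B / (log X)^c` of them. -/
theorem result (f : ℤ[X]) (hsq : Squarefree (f.map (Int.castRingHom ℚ)))
    (heven : Even f.natDegree) (hdeg : 6 ≤ f.natDegree) (hroot : ∀ r : ℚ, aeval r f ≠ 0)
    (hquad : ∀ a : ℂ, aeval a f = 0 → (minpoly ℚ a).natDegree = 2 →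
      ∃ b : ℂ, aeval b f = 0 ∧ a ∉ IntermediateField.adjoin ℚ ({b} : Set ℂ)) :
    ∃ δ c B : ℝ, 0 < δ ∧ δ ≤ 1 ∧ 0 < c ∧ 0 < B ∧
      (∀ X : ℕ, 3 ≤ X → |∑ p ∈ (Finset.range (X + 1)).filter
          (fun p : ℕ => p.Prime ∧ ∃ a : ℤ, (p : ℤ) ∣ f.eval a), 1 / (p : ℝ) -
        δ * Real.log (Real.log X)| ≤ B) ∧
      ∃ X₀ : ℕ, ∀ X : ℕ, X₀ ≤ X →
        X * (Real.log X) ^ (δ - 1) / B ≤ (((Finset.Icc (-(X : ℤ)) X).filter
          (fun d => Squarefree d ∧ TwistEverywhereLocal f d)).card : ℝ) ∧
        (((Finset.Icc (-(X : ℤ)) X).filter
          (fun d => Squarefree d ∧ TwistEverywhereLocal f d)).card : ℝ) ≤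
          B * (X * (Real.log X) ^ (δ - 1)) ∧
        (((Finset.Icc (-(X : ℤ)) X).filter
          (fun d => Squarefree d ∧ TwistSelNonempty 2 f d)).card : ℝ) ≤
          B / (Real.log X) ^ c * (((Finset.Icc (-(X : ℤ)) X).filter
            (fun d => Squarefree d ∧ TwistEverywhereLocal f d)).card : ℝ) :=
  main_rel f hsq heven hdeg hroot hquad

end Pool.Agent.Results.MP_d37f77_nt.LocallySolubleTwists
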